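import Pool.Agent.helper69.LN.TSpec

/-!
# Row TFF of the project LN (MP_069684_lc), part T
-/

set_option autoImplicit false

namespace Pool.Agent.LN

open Finset Pool.Agent.helper38.Neg Pool.Agent.helper55.NT

/-- the indices from `u` on -/
abbrev TFF_I (u n : ℕ) : Type := {i : Fin n // u ≤ (i : ℕ)}

theorem TFF_card (u n : ℕ) : Fintype.card (TFF_I u n) ≤ n := by
  have h := Fintype.card_subtype_le (fun i : Fin n => u ≤ (i : ℕ))
  rwa [Fintype.card_fin] at h

theorem TFF : TFF_stmt := by
  intro n s u C o f hC hf
  let A : Fn (n + n) := fun w => anyB fun i : TFF_I u n =>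
    (w (Fin.castAdd n i.1) && w (Fin.natAdd n i.1))
  let B : Fn (n + n) := fun w => allB fun i : TFF_I u n =>
    (w (Fin.castAdd n i.1) || w (Fin.natAdd n i.1))
  let G : Fn (n + n) := fun w => C.val (w ∘ Fin.castAdd n) o
  have hA : ∀ w, A w = true ↔ ∃ i : Fin n, u ≤ (i : ℕ) ∧ w (Fin.castAdd n i) = true ∧
      w (Fin.natAdd n i) = true := by
    intro w
    simp only [A]
    rw [anyB_iff]
    constructor
    · rintro ⟨⟨i, hi⟩, h⟩
      rw [Bool.and_eq_true] at h
      exact ⟨i, hi, h.1, h.2⟩
    · rintro ⟨i, hi, h1, h2⟩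
      exact ⟨⟨i, hi⟩, by rw [Bool.and_eq_true]; exact ⟨h1, h2⟩⟩
  have hB : ∀ w, B w = true ↔ ∀ i : Fin n, u ≤ (i : ℕ) → w (Fin.castAdd n i) = true ∨
      w (Fin.natAdd n i) = true := by
    intro w
    simp only [B]
    rw [allB_iff]
    constructor
    · intro h i hi
      have h1 := h ⟨i, hi⟩
      rw [Bool.or_eq_true] at h1
      exact h1
    · intro h i
      rw [Bool.or_eq_true]
      exact h i.1 i.2
  have hG : ∀ w, G w = true ↔ f (w ∘ Fin.castAdd n) := fun w => hC _
  have hcA : HasCost A (n * 2 + 1) := by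
    have h1 := HasCost.any (ι := Fin (n + n)) (fun (i : TFF_I u n) w =>
      (w (Fin.castAdd n i.1) && w (Fin.natAdd n i.1))) 1
      (fun i => (HasCost.var _).and (HasCost.var _))
    refine h1.mono ?_
    have h2 := TFF_card u n
    omega
  have hcB : HasCost B (n * 2 + 1) := by
    have h1 := HasCost.all (ι := Fin (n + n)) (fun (i : TFF_I u n) w =>
      (w (Fin.castAdd n i.1) || w (Fin.natAdd n i.1))) 1
      (fun i => (HasCost.var _).or (HasCost.var _))
    refine h1.mono ?_
    have h2 := TFF_card u n
    omega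
  have hcG : HasCost G s := by
    obtain ⟨L, hL1, hL2, hL3⟩ := Circuit.toChain C
    exact HasCost.rename (Fin.castAdd n) (f := fun z => C.val z o) ⟨L, hL1, hL2.le, hL3 o⟩
  obtain ⟨L, g1, g2, g3⟩ := hcA.or (hcB.and hcG)
  obtain ⟨C', hC'⟩ := g1.toCircuit
  obtain ⟨o', ho'⟩ := hC' _ g3
  refine ⟨fun w => A w || (B w && G w), ?_, ?_, L.length, by omega, C', o', ho'⟩
  · intro w w' hw h
    rw [Bool.or_eq_true, Bool.and_eq_true] at h ⊢
    by_cases hA' : A w' = true
    · exact Or.inl hA'
    · right
      rcases h with h | ⟨h1, h2⟩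
      · exfalso
        apply hA'
        obtain ⟨i, hi, h3, h4⟩ := (hA w).1 h
        exact (hA w').2 ⟨i, hi, hw _ h3, hw _ h4⟩
      · rw [hB] at h1
        refine ⟨(hB w').2 fun i hi => ?_, ?_⟩
        · rcases h1 i hi with h3 | h3
          · exact Or.inl (hw _ h3)
          · exact Or.inr (hw _ h3)
        · rw [hG] at h2 ⊢
          refine hf _ _ ?_ ?_ h2
          · intro i
            rw [Bool.le_iff_imp]
            exact hw _
          · intro i hi
            show w (Fin.castAdd n i) = w' (Fin.castAdd n i)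
            by_cases h3 : w (Fin.castAdd n i) = true
            · rw [h3, hw _ h3]
            · rw [Bool.not_eq_true] at h3
              rcases h1 i hi with h4 | h4
              · rw [h3] at h4
                exact absurd h4 (by simp)
              · rw [h3]
                symm
                rw [← Bool.not_eq_true]
                intro h5
                exact hA' ((hA w').2 ⟨i, hi, h5, hw _ h4⟩)
  · intro z
    have h1 : ∀ i : Fin n, io u z (Fin.castAdd n i) = z i := fun i => by
      unfold io
      rw [Fin.append_left]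
    have h2 : ∀ i : Fin n, u ≤ (i : ℕ) → io u z (Fin.natAdd n i) = !(z i) := fun i hi => by
      unfold io
      rw [Fin.append_right, if_neg (by omega)]
    have h3 : (io u z) ∘ Fin.castAdd n = z := funext h1
    have h4 : ¬ A (io u z) = true := by
      rw [hA]
      rintro ⟨i, hi, h5, h6⟩
      rw [h1] at h5
      rw [h2 i hi, h5] at h6
      exact absurd h6 (by simp)
    have h5 : B (io u z) = true := by
      rw [hB]
      intro i hi
      rw [h1, h2 i hi]
      cases z i <;> simp
    show (A (io u z) || (B (io u z) && G (io u z))) = true ↔ f z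
    rw [Bool.or_eq_true, Bool.and_eq_true, hG, h3]
    constructor
    · rintro (h6 | ⟨-, h6⟩)
      · exact absurd h6 h4
      · exact h6
    · intro h6
      exact Or.inr ⟨h5, h6⟩

end Pool.Agent.LN
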