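import Pool.Agent.helper69.LN.GSpec

/-!
# Row GCH of the project LN (MP_069684_lc)
-/

set_option autoImplicit false

namespace Pool.Agent.LN

open Finset Pool.Agent.helper38.Neg Pool.Agent.helper55.NT Pool.Agent.helper83.Comb

theorem GCH_build {n s : ℕ} {κ : Type} (C : GC n s) (b : Fin n → Bool)
    (X : (κ → Bool) → (Fin n → Bool))
    (hX : ∀ i, (∃ c, ∀ y, X y i = c) ∨ ∃ k, ∀ y, X y i = y k) :
    ∃ L, RChain L ∧ L.length ≤ s ∧ ∀ k, RAvail L (fun y => C.star b (X y) k) := by
  induction C with
  | nil =>
    refine ⟨[], RChain.nil, le_rfl, ?_⟩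
    intro i
    rcases hX i with ⟨c, hc⟩ | ⟨k, hk⟩
    · refine Or.inr (Or.inl ⟨if c = true then 1 else 0, ?_⟩)
      funext y
      change (if X y i = true then (1 : ℝ) else 0) = _
      rw [hc y]
    · refine Or.inr (Or.inr ⟨k, ?_⟩)
      funext y
      change (if X y i = true then (1 : ℝ) else 0) = _
      rw [hk y]
  | @mono s C φ hφ i j ih =>
    obtain ⟨L, hL, hlen, hk⟩ := ih
    refine ⟨_, RChain.gate φ hL (hk i) (hk j) hφ, by simp; omega, ?_⟩
    intro k
    refine Fin.lastCases ?_ (fun l => ?_) k
    · left
      have : (fun y => (GC.mono C φ hφ i j).star b (X y) (Fin.last (n + s))) =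
          fun y => φ (C.star b (X y) i) (C.star b (X y) j) := by
        funext y
        simp [GC.star]
      exact List.mem_cons.2 (Or.inl this)
    · have : (fun y => (GC.mono C φ hφ i j).star b (X y) (Fin.castSucc l)) =
          fun y => C.star b (X y) l := by
        funext y
        simp [GC.star]
      rw [show (fun y => (GC.mono C φ hφ i j).star b (X y)
        (Fin.castSucc l)) = _ from this]
      exact (hk l).mono (by intro f hf; exact List.mem_cons_of_mem _ hf)
  | @free s C m w g ih =>
    obtain ⟨L, hL, hlen, hk⟩ := ih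
    refine ⟨L, hL, by omega, ?_⟩
    intro k
    refine Fin.lastCases ?_ (fun l => ?_) k
    · refine Or.inr (Or.inl ⟨g fun i => C.val b (w i), ?_⟩)
      funext y
      simp [GC.star]
    · have : (fun y => (GC.free C m w g).star b (X y) (Fin.castSucc l)) =
          fun y => C.star b (X y) l := by
        funext y
        simp [GC.star]
      rw [show (fun y => (GC.free C m w g).star b (X y)
        (Fin.castSucc l)) = _ from this]
      exact hk l

theorem GCH : GCH_stmt := by
  intro n s κ C b X hX
  exact GCH_build C b X hX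

end Pool.Agent.LN
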